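import Pool.Agent.Helper93.UX.Defs
import Pool.Agent.Helper56.UG.Cv

/-!
# UX: from the measure of a set of `t` to the number of the ordinates that serve it

`holder_left`: last ordinate `≤ t`; `holder_right`: first ordinate `≥ t`. For `x > 0` the set is covered by the intervals
of length `x * sp T` at the ordinates in `G` and by (a translate of) the set of `GM`; `x ^ (q - 1) = 2 C / h`.
-/

set_option autoImplicit false
open MeasureTheory Set Filter Topology
open Pool.Agent.Helper57.Zeta Pool.Agent.Helper57.LH Pool.Agent.Helper57.ED Pool.Agent.Helper54.LG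
open Pool.Agent.Helper93.UG (zc IsOrd sp Glong Gshort)
open Pool.Agent.Helper69.UG (pt NX XX NR NM WW near far)
open Pool.Agent.Helper69.UV (ww HH)
open Pool.Agent.Helper69.UW
open Pool.Agent.Helper93.UX

namespace Pool.Agent.Helper72.UX

/-- Covering by finitely many sets of measure at most `L` and one of measure at most `w`. -/
lemma cover {H G W : Set ℝ} (hG : G.Finite) {L w v : ℝ} (hL : 0 ≤ L) (hw : 0 ≤ w) {I : ℝ → Set ℝ}
    (hI : ∀ g, volume (I g) ≤ ENNReal.ofReal L) (hW : volume W ≤ ENNReal.ofReal w) (hH : H ⊆ (⋃ g ∈ G, I g) ∪ W)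
    (hv : ENNReal.ofReal v ≤ volume H) : v ≤ L * (G.ncard : ℝ) + w := by
  have h1 : volume (⋃ g ∈ G, I g) ≤ ENNReal.ofReal (L * (G.ncard : ℝ)) := by
    have h2 : (⋃ g ∈ G, I g) = ⋃ g ∈ hG.toFinset, I g := by simp
    rw [h2]
    refine (measure_biUnion_finset_le _ _).trans ?_
    refine (Finset.sum_le_sum fun g _ => hI g).trans ?_
    rw [Finset.sum_const, nsmul_eq_mul, mul_comm L, ENNReal.ofReal_mul (by positivity), ENNReal.ofReal_natCast,
      Set.ncard_eq_toFinset_card G hG]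
  have h3 : ENNReal.ofReal v ≤ ENNReal.ofReal (L * (G.ncard : ℝ) + w) := by
    rw [ENNReal.ofReal_add (by positivity) hw]
    exact hv.trans ((measure_mono hH).trans ((measure_union_le _ _).trans (add_le_add h1 hW)))
  exact (ENNReal.ofReal_le_ofReal_iff (by positivity)).1 h3

/-- The choice of the threshold. -/
lemma thr {T C h n : ℝ} {q : ℕ} (hT : Real.exp 1 ≤ T) (hC : 0 < C) (hq : 2 ≤ q) (hh : 0 < h)
    (H : h * T ≤ (2 * C / h) ^ (1 / ((q : ℝ) - 1)) * sp T * n +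
      C / ((2 * C / h) ^ (1 / ((q : ℝ) - 1))) ^ (q - 1) * T) :
    h ^ ((q : ℝ) / (q - 1)) * (T * Real.log T) / (4 * Real.pi * (2 * C) ^ (1 / ((q : ℝ) - 1))) ≤ n := by
  have hT0 : 0 < T := lt_of_lt_of_le (Real.exp_pos _) hT
  have hlog : 1 ≤ Real.log T := by
    rw [← Real.log_exp 1]
    exact Real.log_le_log (Real.exp_pos _) hT
  have hlog0 : 0 < Real.log T := by linarith
  have hq1 : (1 : ℝ) ≤ (q : ℝ) - 1 := by
    have : (2 : ℝ) ≤ (q : ℝ) := by exact_mod_cast hq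
    linarith
  have hq0 : (0 : ℝ) < (q : ℝ) - 1 := by linarith
  have hcast : ((q - 1 : ℕ) : ℝ) = (q : ℝ) - 1 := by
    rw [Nat.cast_sub (by omega)]
    simp
  have hCh : 0 < 2 * C / h := by positivity
  have hx : ((2 * C / h) ^ (1 / ((q : ℝ) - 1))) ^ (q - 1) = 2 * C / h := by
    rw [← Real.rpow_natCast, ← Real.rpow_mul hCh.le, hcast, one_div, inv_mul_cancel₀ hq0.ne', Real.rpow_one]
  rw [hx] at H
  have h1 : C / (2 * C / h) * T = h * T / 2 := by
    field_simp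
  rw [h1] at H
  have hsplit : h ^ ((q : ℝ) / (q - 1)) = h * h ^ (1 / ((q : ℝ) - 1)) := by
    have : (q : ℝ) / (q - 1) = 1 + 1 / ((q : ℝ) - 1) := by
      field_simp
      ring
    rw [this, Real.rpow_add hh, Real.rpow_one]
  have hdiv : (2 * C / h) ^ (1 / ((q : ℝ) - 1)) = (2 * C) ^ (1 / ((q : ℝ) - 1)) / h ^ (1 / ((q : ℝ) - 1)) :=
    Real.div_rpow (by positivity) hh.le _
  rw [hdiv] at H
  rw [hsplit]
  have hA : 0 < (2 * C) ^ (1 / ((q : ℝ) - 1)) := Real.rpow_pos_of_pos (by positivity) _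
  have hB : 0 < h ^ (1 / ((q : ℝ) - 1)) := Real.rpow_pos_of_pos hh _
  set A := (2 * C) ^ (1 / ((q : ℝ) - 1))
  set D := h ^ (1 / ((q : ℝ) - 1))
  have hpi := Real.pi_pos
  rw [div_le_iff₀ (by positivity)]
  unfold sp at H
  have h2 : h * T / 2 ≤ A / D * (2 * Real.pi / Real.log T) * n := by linarith
  have h3 : A / D * (2 * Real.pi / Real.log T) * n = (2 * Real.pi * A * n) / (D * Real.log T) := by
    field_simp
  rw [h3, le_div_iff₀ (by positivity)] at h2
  nlinarith [h2]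

theorem holder_left (hg : GM) (hmg : ∃ B T₀ : ℝ, 0 < B ∧ ∀ t : ℝ, T₀ ≤ t → 0 < zc (Ico t (t + B))) (q : ℕ) (hq : 2 ≤ q) : ∃ C T₀ : ℝ, 0 < C ∧ ∀ T : ℝ, T₀ ≤ T → ∀ (G : Set ℝ) (H : Set ℝ),
    MeasurableSet H → H ⊆ Icc (T + √T) (2 * T) → (∀ t ∈ H, ∀ g : ℝ, IsOrd g → T ≤ g → g ≤ t → zc (Ioo g t) = 0 → g ∈ G) →
    G ⊆ {g : ℝ | IsOrd g ∧ T ≤ g ∧ g ≤ 2 * T} → ∀ h : ℝ, 0 < h → h ≤ 1 → ENNReal.ofReal (h * T) ≤ volume H →
      h ^ ((q : ℝ) / (q - 1)) * (T * Real.log T) / C ≤ (G.ncard : ℝ) := by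
  obtain ⟨C, T1, hC, hGM⟩ := hg (q - 1)
  obtain ⟨B, T2, hB, hMG⟩ := hmg
  refine ⟨4 * Real.pi * (2 * C) ^ (1 / ((q : ℝ) - 1)), max (max T1 (Real.exp 1)) (max (B ^ 2) (T2 + B)),
    mul_pos (mul_pos (by norm_num) Real.pi_pos) (Real.rpow_pos_of_pos (by positivity) _), ?_⟩
  intro T hT G H _ hH hHG hGT h hh hh1 hv
  have hT1 : T1 ≤ T := le_trans (le_max_left _ _) (le_trans (le_max_left _ _) hT)
  have hTe : Real.exp 1 ≤ T := le_trans (le_max_right _ _) (le_trans (le_max_left _ _) hT)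
  have hTB : B ^ 2 ≤ T := le_trans (le_max_left _ _) (le_trans (le_max_right _ _) hT)
  have hT2 : T2 + B ≤ T := le_trans (le_max_right _ _) (le_trans (le_max_right _ _) hT)
  have hT0 : 0 < T := lt_of_lt_of_le (Real.exp_pos _) hTe
  have hBT : B ≤ √T := Real.le_sqrt_of_sq_le hTB
  have hsp := Helper56.UG.sp_pos hTe
  have hGf : G.Finite := (Helper56.UG.ord_fin T (2 * T)).subset fun g hgG => ⟨(hGT hgG).1, (hGT hgG).2.1, (hGT hgG).2.2⟩
  set x : ℝ := (2 * C / h) ^ (1 / ((q : ℝ) - 1)) with hxdef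
  have hx : 0 < x := Real.rpow_pos_of_pos (by positivity) _
  apply thr hTe hC hq hh
  rw [← hxdef]
  have hW := hGM T hT1 x hx
  refine cover hGf (L := x * sp T) (w := C / x ^ (q - 1) * T) (by positivity) (by positivity)
    (I := fun g => Icc g (g + x * sp T))
    (W := (fun t : ℝ => t - x * sp T) ⁻¹' {t | T / 2 ≤ t ∧ t ≤ 3 * T ∧ zc (Ico t (t + x * sp T)) = 0})
    (fun g => ?_) ?_ ?_ hv
  · rw [Real.volume_Icc, add_sub_cancel_left]
  · simp only [sub_eq_add_neg]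
    rw [measure_preimage_add_right]
    exact hW
  · intro t ht
    have ht1 := (hH ht).1
    have ht2 := (hH ht).2
    have h0 : 0 < zc (Ico (t - B) (t - B + B)) := hMG _ (by linarith)
    rw [sub_add_cancel] at h0
    obtain ⟨g0, hg0, hord⟩ := Helper56.UG.zc_pos h0
    obtain ⟨g, a1, a2, a3, a4⟩ := Helper56.UG.last_ord hord hg0.1 hg0.2
    have hTg : T ≤ g := by linarith [hg0.1]
    have hz : zc (Ioo g t) = 0 := by
      by_contra hne
      obtain ⟨g', hg', hord'⟩ := Helper56.UG.zc_pos (Nat.pos_of_ne_zero hne)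
      have := a4 g' hord' (by linarith [hg'.1, hg0.1]) hg'.2
      linarith [hg'.1]
    have hgG := hHG t ht g a1 hTg a3.le hz
    by_cases hc : t ≤ g + x * sp T
    · left
      simp only [Set.mem_iUnion]
      exact ⟨g, hgG, a3.le, hc⟩
    · right
      push Not at hc
      refine ⟨?_, ?_, ?_⟩
      · show T / 2 ≤ t - x * sp T
        linarith
      · show t - x * sp T ≤ 3 * T
        have : 0 < x * sp T := by positivity
        linarith
      · show zc (Ico (t - x * sp T) (t - x * sp T + x * sp T)) = 0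
        rw [sub_add_cancel]
        have h5 : zc (Ico (t - x * sp T) t) ≤ zc (Ioo g t) :=
          Helper56.UG.zc_mono (a := g) (b := t) (fun y hy => ⟨by linarith [hy.1], hy.2⟩) Set.Ioo_subset_Icc_self
        omega

theorem holder_right (hg : GM) (hmg : ∃ B T₀ : ℝ, 0 < B ∧ ∀ t : ℝ, T₀ ≤ t → 0 < zc (Ico t (t + B))) (q : ℕ) (hq : 2 ≤ q) : ∃ C T₀ : ℝ, 0 < C ∧ ∀ T : ℝ, T₀ ≤ T → ∀ (G : Set ℝ) (H : Set ℝ),
    MeasurableSet H → H ⊆ Icc T (2 * T - √T) → (∀ t ∈ H, ∀ g : ℝ, IsOrd g → g ≤ 2 * T → t ≤ g → zc (Ico t g) = 0 → g ∈ G) →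
    G ⊆ {g : ℝ | IsOrd g ∧ T ≤ g ∧ g ≤ 2 * T} → ∀ h : ℝ, 0 < h → h ≤ 1 → ENNReal.ofReal (h * T) ≤ volume H →
      h ^ ((q : ℝ) / (q - 1)) * (T * Real.log T) / C ≤ (G.ncard : ℝ) := by
  obtain ⟨C, T1, hC, hGM⟩ := hg (q - 1)
  obtain ⟨B, T2, hB, hMG⟩ := hmg
  refine ⟨4 * Real.pi * (2 * C) ^ (1 / ((q : ℝ) - 1)), max (max T1 (Real.exp 1)) (max (B ^ 2) (T2 + B)),
    mul_pos (mul_pos (by norm_num) Real.pi_pos) (Real.rpow_pos_of_pos (by positivity) _), ?_⟩
  intro T hT G H _ hH hHG hGT h hh hh1 hv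
  have hT1 : T1 ≤ T := le_trans (le_max_left _ _) (le_trans (le_max_left _ _) hT)
  have hTe : Real.exp 1 ≤ T := le_trans (le_max_right _ _) (le_trans (le_max_left _ _) hT)
  have hTB : B ^ 2 ≤ T := le_trans (le_max_left _ _) (le_trans (le_max_right _ _) hT)
  have hT2 : T2 + B ≤ T := le_trans (le_max_right _ _) (le_trans (le_max_right _ _) hT)
  have hT0 : 0 < T := lt_of_lt_of_le (Real.exp_pos _) hTe
  have hBT : B ≤ √T := Real.le_sqrt_of_sq_le hTB
  have hsp := Helper56.UG.sp_pos hTe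
  have hGf : G.Finite := (Helper56.UG.ord_fin T (2 * T)).subset fun g hgG => ⟨(hGT hgG).1, (hGT hgG).2.1, (hGT hgG).2.2⟩
  set x : ℝ := (2 * C / h) ^ (1 / ((q : ℝ) - 1)) with hxdef
  have hx : 0 < x := Real.rpow_pos_of_pos (by positivity) _
  apply thr hTe hC hq hh
  rw [← hxdef]
  have hW := hGM T hT1 x hx
  refine cover hGf (L := x * sp T) (w := C / x ^ (q - 1) * T) (by positivity) (by positivity)
    (I := fun g => Icc (g - x * sp T) g)
    (W := {t | T / 2 ≤ t ∧ t ≤ 3 * T ∧ zc (Ico t (t + x * sp T)) = 0})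
    (fun g => ?_) hW ?_ hv
  · rw [Real.volume_Icc, sub_sub_cancel]
  · intro t ht
    have ht1 := (hH ht).1
    have ht2 := (hH ht).2
    have h0 : 0 < zc (Ico t (t + B)) := hMG _ (by linarith)
    obtain ⟨g0, hg0, hord⟩ := Helper56.UG.zc_pos h0
    obtain ⟨g, a1, a2, a3, a4⟩ := Helper56.UG.first_ord hord hg0.1 hg0.2.le
    have hgT : g ≤ 2 * T := by linarith [hg0.2]
    have hz : zc (Ico t g) = 0 := by
      by_contra hne
      obtain ⟨g', hg', hord'⟩ := Helper56.UG.zc_pos (Nat.pos_of_ne_zero hne)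
      have := a4 g' hord' hg'.1 (by linarith [hg'.2, hg0.2])
      linarith [hg'.2]
    have hgG := hHG t ht g a1 hgT a2 hz
    by_cases hc : g - x * sp T ≤ t
    · left
      simp only [Set.mem_iUnion]
      exact ⟨g, hgG, hc, a2⟩
    · right
      push Not at hc
      refine ⟨by linarith, by linarith, ?_⟩
      have h5 : zc (Ico t (t + x * sp T)) ≤ zc (Ico t g) :=
        Helper56.UG.zc_mono (a := t) (b := g) (fun y hy => ⟨hy.1, by linarith [hy.2]⟩) Set.Ico_subset_Icc_self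
      omega

end Pool.Agent.Helper72.UX
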