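import Pool.Agent.Helper93.UX.Defs

/-!
# UX: the abstract smoothing step

Hölder with three functions: the indicator of `G`, the indicator of `H`, and `f`.
-/

set_option autoImplicit false
open MeasureTheory Set Filter Topology
open scoped ENNReal

namespace Pool.Agent.Helper72.UX

lemma holder3 {q : ℕ} (hq : 2 ≤ q) {A B : Set ℝ} (hA : MeasurableSet A) (hB : MeasurableSet B) {F : ℝ → ℝ≥0∞}
    (hF : Measurable F) :
    ∫⁻ t, A.indicator 1 t * (B.indicator 1 t * F t) ≤
      volume A ^ (1 / (2 * (q : ℝ))) * volume B ^ (1 - 1 / (q : ℝ)) *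
        (∫⁻ t, F t ^ (2 * (q : ℝ))) ^ (1 / (2 * (q : ℝ))) := by
  have hq2 : (2 : ℝ) ≤ (q : ℝ) := by exact_mod_cast hq
  have hq0 : (0 : ℝ) < (q : ℝ) := by linarith
  have h := ENNReal.lintegral_prod_norm_pow_le (μ := (volume : Measure ℝ)) (Finset.univ : Finset (Fin 3))
    (f := ![A.indicator 1, B.indicator 1, fun t => F t ^ (2 * (q : ℝ))])
    (p := ![1 / (2 * (q : ℝ)), 1 - 1 / (q : ℝ), 1 / (2 * (q : ℝ))])
    (by
      intro i _
      fin_cases i
      · exact (measurable_one.indicator hA).aemeasurable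
      · exact (measurable_one.indicator hB).aemeasurable
      · exact (hF.pow_const _).aemeasurable)
    (by
      simp only [Fin.sum_univ_three, Matrix.cons_val_zero, Matrix.cons_val_one, Matrix.cons_val]
      field_simp
      ring)
    (by
      intro i _
      have h1 : (0 : ℝ) ≤ 1 / (2 * (q : ℝ)) := by positivity
      have h2 : (0 : ℝ) ≤ 1 - 1 / (q : ℝ) := by
        have : 1 / (q : ℝ) ≤ 1 := by
          rw [div_le_one hq0]
          linarith
        linarith
      fin_cases i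
      · exact h1
      · exact h2
      · exact h1)
  simp only [Fin.prod_univ_three, Matrix.cons_val_zero, Matrix.cons_val_one, Matrix.cons_val] at h
  rw [lintegral_indicator_one hA, lintegral_indicator_one hB] at h
  refine le_trans (lintegral_mono fun t => ?_) h
  by_cases h1 : t ∈ A
  · by_cases h2 : t ∈ B
    · simp only [Set.indicator_of_mem h1, Set.indicator_of_mem h2, Pi.one_apply, ENNReal.one_rpow, one_mul]
      rw [← ENNReal.rpow_mul]
      have : 2 * (q : ℝ) * (1 / (2 * (q : ℝ))) = 1 := by field_simp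
      rw [this, ENNReal.rpow_one]
    · simp [Set.indicator_of_notMem h2]
  · simp [Set.indicator_of_notMem h1]

/-- The mean over `G`. -/
lemma step_mean {T V ρ : ℝ} (hT : 16 ≤ T) (hV : 1 ≤ V) (f : ℝ → ℝ) (hf : Measurable f) (k : ℝ → ℝ)
    (hk : Measurable k) (hk0 : ∀ s, 0 ≤ k s)
    (hki : Integrable k) (hk1 : ∫ s, k s = 1) (hkf : ∀ t, Integrable fun s => k s * f (t + s))
    (hfar : ∀ t, T ≤ t → t ≤ 2 * T → ∫ s in {s : ℝ | √T < |s|}, k s * |f (t + s)| ≤ ρ * V / 2)
    {t : ℝ} (ht1 : T ≤ t) (ht2 : t ≤ 2 * T) (hdev : (1 + ρ) * V ≤ ∫ s, k s * f (t + s)) :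
    ENNReal.ofReal (ρ * V / 2) ≤ ∫⁻ s, ENNReal.ofReal (k s) *
      ({u : ℝ | T - √T ≤ u ∧ u ≤ 2 * T + √T ∧ V ≤ f u}.indicator 1 (t + s) *
        (Icc (T / 2) (3 * T)).indicator (fun u => ENNReal.ofReal (f u)) (t + s)) := by
  set H : Set ℝ := {u : ℝ | T - √T ≤ u ∧ u ≤ 2 * T + √T ∧ V ≤ f u} with hHdef
  have hH : MeasurableSet H := by
    have : H = Icc (T - √T) (2 * T + √T) ∩ {u | V ≤ f u} := by
      ext u
      simp only [hHdef, Set.mem_setOf_eq, Set.mem_inter_iff, Set.mem_Icc]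
      tauto
    rw [this]
    exact measurableSet_Icc.inter (measurableSet_le measurable_const hf)
  have hsT : √T ≤ T / 4 := by
    rw [Real.sqrt_le_left (by linarith)]
    nlinarith
  have hKc : MeasurableSet {s : ℝ | √T < |s|} := measurableSet_lt measurable_const measurable_abs
  have hHt : MeasurableSet {s : ℝ | t + s ∈ H} := hH.preimage (measurable_const_add t)
  have e1 : (fun s => k s * H.indicator f (t + s)) = {s : ℝ | t + s ∈ H}.indicator (fun s => k s * f (t + s)) := by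
    ext s
    by_cases h : t + s ∈ H
    · rw [Set.indicator_of_mem h, Set.indicator_of_mem (show s ∈ {s : ℝ | t + s ∈ H} from h)]
    · rw [Set.indicator_of_notMem h, Set.indicator_of_notMem (show s ∉ {s : ℝ | t + s ∈ H} from h), mul_zero]
  have hint : Integrable (fun s => k s * H.indicator f (t + s)) := by
    rw [e1]
    exact (hkf t).indicator hHt
  have hnn : ∀ s, 0 ≤ k s * H.indicator f (t + s) := by
    intro s
    refine mul_nonneg (hk0 s) ?_
    by_cases h : t + s ∈ H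
    · rw [Set.indicator_of_mem h]
      linarith [h.2.2]
    · rw [Set.indicator_of_notMem h]
  -- the near part
  have h1 : ρ * V / 2 ≤ ∫ s, k s * H.indicator f (t + s) := by
    have e2 := integral_add_compl hKc (hkf t)
    have h3 : ∫ s in {s : ℝ | √T < |s|}, k s * f (t + s) ≤ ρ * V / 2 := by
      refine le_trans ?_ (hfar t ht1 ht2)
      have hi : Integrable (fun s => k s * |f (t + s)|) := by
        refine (hkf t).abs.congr (Filter.Eventually.of_forall fun s => ?_)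
        show |k s * f (t + s)| = k s * |f (t + s)|
        rw [abs_mul, abs_of_nonneg (hk0 s)]
      refine integral_mono (hkf t).integrableOn hi.integrableOn fun s => ?_
      exact mul_le_mul_of_nonneg_left (le_abs_self _) (hk0 s)
    have h4 : ∫ s in {s : ℝ | √T < |s|}ᶜ, k s * f (t + s) ≤ V + ∫ s, k s * H.indicator f (t + s) := by
      have h5 : ∫ s in {s : ℝ | √T < |s|}ᶜ, k s * f (t + s) ≤
          ∫ s in {s : ℝ | √T < |s|}ᶜ, (k s * V + k s * H.indicator f (t + s)) := by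
        refine setIntegral_mono_on (hkf t).integrableOn ((hki.mul_const V).add hint).integrableOn hKc.compl fun s hs => ?_
        have hs' : |s| ≤ √T := by
          simpa using hs
        rw [abs_le] at hs'
        by_cases h : t + s ∈ H
        · rw [Set.indicator_of_mem h]
          nlinarith [hk0 s]
        · rw [Set.indicator_of_notMem h, mul_zero, add_zero]
          refine mul_le_mul_of_nonneg_left ?_ (hk0 s)
          by_contra hcon
          push Not at hcon
          exact h ⟨by linarith [hs'.1], by linarith [hs'.2], hcon.le⟩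
      have h6 : ∫ s in {s : ℝ | √T < |s|}ᶜ, (k s * V + k s * H.indicator f (t + s)) ≤
          ∫ s, (k s * V + k s * H.indicator f (t + s)) :=
        setIntegral_le_integral ((hki.mul_const V).add hint) (Filter.Eventually.of_forall fun s => by
          show (0 : ℝ) ≤ k s * V + k s * H.indicator f (t + s)
          have := mul_nonneg (hk0 s) (by linarith : (0 : ℝ) ≤ V)
          linarith [hnn s])
      have h7 : ∫ s, (k s * V + k s * H.indicator f (t + s)) = V + ∫ s, k s * H.indicator f (t + s) := by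
        rw [integral_add (hki.mul_const V) hint, integral_mul_const, hk1, one_mul]
      linarith
    linarith
  calc ENNReal.ofReal (ρ * V / 2) ≤ ENNReal.ofReal (∫ s, k s * H.indicator f (t + s)) := ENNReal.ofReal_le_ofReal h1
    _ = ∫⁻ s, ENNReal.ofReal (k s * H.indicator f (t + s)) :=
        ofReal_integral_eq_lintegral_ofReal hint (Filter.Eventually.of_forall hnn)
    _ ≤ _ := by
        refine lintegral_mono fun s => ?_
        rw [ENNReal.ofReal_mul (hk0 s)]
        refine mul_le_mul_right ?_ _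
        by_cases h : t + s ∈ H
        · have hw : t + s ∈ Icc (T / 2) (3 * T) := ⟨by linarith [h.1], by linarith [h.2.1]⟩
          rw [Set.indicator_of_mem h, Set.indicator_of_mem h, Set.indicator_of_mem hw, Pi.one_apply, one_mul]
        · rw [Set.indicator_of_notMem h]
          simp

/-- The final arithmetic. -/
lemma step_arith {T V ρ S M g h : ℝ} {q : ℕ} (hT : 0 < T) (hV : 1 ≤ V) (hρ : 0 < ρ) (hS : 0 < S) (hM : 0 < M)
    (hq : 2 ≤ q) {p : ℝ} (hp : 0 < p) (hg : p * T ≤ g) (hh : 0 ≤ h)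
    (H : ρ * V / 2 * g ≤ g ^ (1 / (2 * (q : ℝ))) * h ^ (1 - 1 / (q : ℝ)) * (M * S ^ (2 * q) * T) ^ (1 / (2 * (q : ℝ)))) :
    (ρ * V / (2 * S)) ^ ((q : ℝ) / (q - 1)) * (1 / (M + 1)) * p ^ ((2 * q - 1 : ℝ) / (2 * q - 2)) * T ≤ h := by
  have hq2 : (2 : ℝ) ≤ (q : ℝ) := by exact_mod_cast hq
  have hq0 : (0 : ℝ) < (q : ℝ) := by linarith
  have hq1 : (0 : ℝ) < (q : ℝ) - 1 := by linarith
  have hV0 : 0 < V := by linarith
  have hpT : 0 < p * T := by positivity
  have hg0 : 0 < g := lt_of_lt_of_le hpT hg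
  -- divide by g ^ (1 / 2q)
  have h1 : ρ * V / 2 * g ^ (1 - 1 / (2 * (q : ℝ))) ≤
      h ^ (1 - 1 / (q : ℝ)) * (M * S ^ (2 * q) * T) ^ (1 / (2 * (q : ℝ))) := by
    have e : g = g ^ (1 / (2 * (q : ℝ))) * g ^ (1 - 1 / (2 * (q : ℝ))) := by
      rw [← Real.rpow_add hg0]
      simp
    have hgp : 0 < g ^ (1 / (2 * (q : ℝ))) := Real.rpow_pos_of_pos hg0 _
    have h2 : g ^ (1 / (2 * (q : ℝ))) * (ρ * V / 2 * g ^ (1 - 1 / (2 * (q : ℝ)))) ≤
        g ^ (1 / (2 * (q : ℝ))) * (h ^ (1 - 1 / (q : ℝ)) * (M * S ^ (2 * q) * T) ^ (1 / (2 * (q : ℝ)))) := by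
      calc g ^ (1 / (2 * (q : ℝ))) * (ρ * V / 2 * g ^ (1 - 1 / (2 * (q : ℝ))))
          = ρ * V / 2 * (g ^ (1 / (2 * (q : ℝ))) * g ^ (1 - 1 / (2 * (q : ℝ)))) := by ring
        _ = ρ * V / 2 * g := by rw [← e]
        _ ≤ _ := H
        _ = _ := by ring
    exact le_of_mul_le_mul_left h2 hgp
  have h2 : ρ * V / 2 * (p * T) ^ (1 - 1 / (2 * (q : ℝ))) ≤ ρ * V / 2 * g ^ (1 - 1 / (2 * (q : ℝ))) := by
    refine mul_le_mul_of_nonneg_left (Real.rpow_le_rpow hpT.le hg ?_) (by positivity)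
    rw [sub_nonneg, div_le_one (by positivity)]
    linarith
  have hS2 : (M * S ^ (2 * q) * T) ^ (1 / (2 * (q : ℝ))) = M ^ (1 / (2 * (q : ℝ))) * S * T ^ (1 / (2 * (q : ℝ))) := by
    rw [Real.mul_rpow (by positivity) hT.le, Real.mul_rpow hM.le (by positivity)]
    congr 2
    rw [← Real.rpow_natCast, ← Real.rpow_mul hS.le]
    push_cast
    rw [show 2 * (q : ℝ) * (1 / (2 * (q : ℝ))) = 1 by field_simp, Real.rpow_one]
  rw [hS2] at h1
  -- raise to the power q / (q - 1)
  have h3 : ρ * V / (2 * S) * (p ^ (1 - 1 / (2 * (q : ℝ))) * T ^ (1 - 1 / (q : ℝ))) * (M ^ (1 / (2 * (q : ℝ))))⁻¹ ≤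
      h ^ (1 - 1 / (q : ℝ)) := by
    have hTp : 0 < T ^ (1 / (2 * (q : ℝ))) := Real.rpow_pos_of_pos hT _
    have hMp : 0 < M ^ (1 / (2 * (q : ℝ))) := Real.rpow_pos_of_pos hM _
    have e1 : (p * T) ^ (1 - 1 / (2 * (q : ℝ))) = p ^ (1 - 1 / (2 * (q : ℝ))) * (T ^ (1 - 1 / (q : ℝ)) * T ^ (1 / (2 * (q : ℝ)))) := by
      rw [Real.mul_rpow hp.le hT.le, ← Real.rpow_add hT]
      congr 2
      field_simp
      ring
    rw [e1] at h2
    have h4 := h2.trans h1
    have h5 : (ρ * V / (2 * S) * (p ^ (1 - 1 / (2 * (q : ℝ))) * T ^ (1 - 1 / (q : ℝ))) * (M ^ (1 / (2 * (q : ℝ))))⁻¹) *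
        (M ^ (1 / (2 * (q : ℝ))) * S * T ^ (1 / (2 * (q : ℝ)))) ≤
        h ^ (1 - 1 / (q : ℝ)) * (M ^ (1 / (2 * (q : ℝ))) * S * T ^ (1 / (2 * (q : ℝ)))) := by
      refine le_trans (le_of_eq ?_) h4
      field_simp
    exact le_of_mul_le_mul_right h5 (by positivity)
  have h4 := Real.rpow_le_rpow (by positivity) h3 (show 0 ≤ (q : ℝ) / (q - 1) by positivity)
  have e2 : (h ^ (1 - 1 / (q : ℝ))) ^ ((q : ℝ) / (q - 1)) = h := by
    rw [← Real.rpow_mul hh]
    have : (1 - 1 / (q : ℝ)) * ((q : ℝ) / (q - 1)) = 1 := by field_simp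
    rw [this, Real.rpow_one]
  rw [e2] at h4
  refine le_trans ?_ h4
  have hpp : 0 < p ^ (1 - 1 / (2 * (q : ℝ))) := Real.rpow_pos_of_pos hp _
  have hTT : 0 < T ^ (1 - 1 / (q : ℝ)) := Real.rpow_pos_of_pos hT _
  have hMM : 0 < M ^ (1 / (2 * (q : ℝ))) := Real.rpow_pos_of_pos hM _
  rw [Real.mul_rpow (by positivity) (by positivity), Real.mul_rpow (by positivity) (by positivity),
    Real.mul_rpow hpp.le hTT.le]
  have e3 : (p ^ (1 - 1 / (2 * (q : ℝ)))) ^ ((q : ℝ) / (q - 1)) = p ^ ((2 * q - 1 : ℝ) / (2 * q - 2)) := by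
    rw [← Real.rpow_mul hp.le]
    congr 1
    have : (2 * q - 2 : ℝ) = 2 * (q - 1) := by ring
    rw [this]
    field_simp
  have e4 : (T ^ (1 - 1 / (q : ℝ))) ^ ((q : ℝ) / (q - 1)) = T := by
    rw [← Real.rpow_mul hT.le]
    have : (1 - 1 / (q : ℝ)) * ((q : ℝ) / (q - 1)) = 1 := by field_simp
    rw [this, Real.rpow_one]
  have e5 : 1 / (M + 1) ≤ ((M ^ (1 / (2 * (q : ℝ))))⁻¹) ^ ((q : ℝ) / (q - 1)) := by
    rw [Real.inv_rpow hMM.le, ← Real.rpow_mul hM.le, one_div]
    refine inv_anti₀ (Real.rpow_pos_of_pos hM _) ?_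
    have h0 : (0 : ℝ) ≤ 1 / (2 * (q : ℝ)) * ((q : ℝ) / (q - 1)) := by positivity
    have h1' : 1 / (2 * (q : ℝ)) * ((q : ℝ) / (q - 1)) ≤ 1 := by
      have : 1 / (2 * (q : ℝ)) * ((q : ℝ) / (q - 1)) = 1 / (2 * (q - 1)) := by field_simp
      rw [this, div_le_one (by positivity)]
      linarith
    calc M ^ (1 / (2 * (q : ℝ)) * ((q : ℝ) / (q - 1))) ≤ (M + 1) ^ (1 / (2 * (q : ℝ)) * ((q : ℝ) / (q - 1))) :=
          Real.rpow_le_rpow hM.le (by linarith) h0
      _ ≤ (M + 1) ^ (1 : ℝ) := Real.rpow_le_rpow_of_exponent_le (by linarith) h1'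
      _ = M + 1 := Real.rpow_one _
  rw [e3, e4]
  have hA : 0 ≤ (ρ * V / (2 * S)) ^ ((q : ℝ) / (q - 1)) := by positivity
  have hB : 0 ≤ p ^ ((2 * q - 1 : ℝ) / (2 * q - 2)) := by positivity
  calc (ρ * V / (2 * S)) ^ ((q : ℝ) / (q - 1)) * (1 / (M + 1)) * p ^ ((2 * q - 1 : ℝ) / (2 * q - 2)) * T
      = (ρ * V / (2 * S)) ^ ((q : ℝ) / (q - 1)) * (p ^ ((2 * q - 1 : ℝ) / (2 * q - 2)) * T) * (1 / (M + 1)) := by ring
    _ ≤ _ := by gcongr

theorem smooth_step {T X V ρ S M : ℝ} {q : ℕ} (hT : 16 ≤ T) (hX : 1 ≤ X) (hV : 1 ≤ V) (hρ : 0 < ρ) (hρ1 : ρ ≤ 1) (hS : 0 < S)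
    (hM : 0 < M) (hq : 2 ≤ q) (f : ℝ → ℝ) (hf : Measurable f) (k : ℝ → ℝ) (hk : Measurable k) (hk0 : ∀ s, 0 ≤ k s)
    (hki : Integrable k) (hk1 : ∫ s, k s = 1) (hkf : ∀ t, Integrable fun s => k s * f (t + s))
    (hfar : ∀ t, T ≤ t → t ≤ 2 * T → ∫ s in {s : ℝ | √T < |s|}, k s * |f (t + s)| ≤ ρ * V / 2)
    (hmi : IntegrableOn (fun t => |f t| ^ (2 * q)) (Icc (T / 2) (3 * T)))
    (hm : ∫ t in Icc (T / 2) (3 * T), |f t| ^ (2 * q) ≤ M * S ^ (2 * q) * T)
    (G : Set ℝ) (hG : MeasurableSet G) (hGT : G ⊆ Icc T (2 * T))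
    (hdev : ∀ t ∈ G, (1 + ρ) * V ≤ ∫ s, k s * f (t + s)) {p : ℝ} (hp : 0 < p) (hp1 : p ≤ 1)
    (hpG : ENNReal.ofReal (p * T) ≤ volume G) :
    ENNReal.ofReal ((ρ * V / (2 * S)) ^ ((q : ℝ) / (q - 1)) * (1 / (M + 1)) * p ^ ((2 * q - 1 : ℝ) / (2 * q - 2)) * T) ≤
      volume {t : ℝ | T - √T ≤ t ∧ t ≤ 2 * T + √T ∧ V ≤ f t} := by
  clear hX hρ1 hp1
  have hT0 : 0 < T := by linarith
  have hq2 : (2 : ℝ) ≤ (q : ℝ) := by exact_mod_cast hq
  have hq0 : (0 : ℝ) < (q : ℝ) := by linarith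
  set H : Set ℝ := {u : ℝ | T - √T ≤ u ∧ u ≤ 2 * T + √T ∧ V ≤ f u} with hHdef
  have hH : MeasurableSet H := by
    have : H = Icc (T - √T) (2 * T + √T) ∩ {u | V ≤ f u} := by
      ext u
      simp only [hHdef, Set.mem_setOf_eq, Set.mem_inter_iff, Set.mem_Icc]
      tauto
    rw [this]
    exact measurableSet_Icc.inter (measurableSet_le measurable_const hf)
  have hHsub : H ⊆ Icc (T - √T) (2 * T + √T) := fun u hu => ⟨hu.1, hu.2.1⟩
  have hHfin : volume H ≠ ⊤ := ne_top_of_le_ne_top (by simp) (measure_mono hHsub)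
  have hGfin : volume G ≠ ⊤ := ne_top_of_le_ne_top (by simp) (measure_mono hGT)
  set Fw : ℝ → ℝ≥0∞ := (Icc (T / 2) (3 * T)).indicator (fun u => ENNReal.ofReal (f u)) with hFw
  have hFwm : Measurable Fw := hf.ennreal_ofReal.indicator measurableSet_Icc
  have hIm : Measurable (H.indicator (1 : ℝ → ℝ≥0∞)) := measurable_one.indicator hH
  -- moments
  have hmom : ∫⁻ u, Fw u ^ (2 * (q : ℝ)) ≤ ENNReal.ofReal (M * S ^ (2 * q) * T) := by
    calc ∫⁻ u, Fw u ^ (2 * (q : ℝ)) = ∫⁻ u, (Icc (T / 2) (3 * T)).indicator (fun u => ENNReal.ofReal (f u) ^ (2 * (q : ℝ))) u := by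
          refine lintegral_congr fun u => ?_
          by_cases h : u ∈ Icc (T / 2) (3 * T)
          · rw [hFw, Set.indicator_of_mem h, Set.indicator_of_mem h]
          · rw [hFw, Set.indicator_of_notMem h, Set.indicator_of_notMem h, ENNReal.zero_rpow_of_pos (by positivity)]
      _ = ∫⁻ u in Icc (T / 2) (3 * T), ENNReal.ofReal (f u) ^ (2 * (q : ℝ)) := lintegral_indicator measurableSet_Icc _
      _ ≤ ∫⁻ u in Icc (T / 2) (3 * T), ENNReal.ofReal (|f u| ^ (2 * q)) := by
          refine lintegral_mono fun u => ?_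
          rw [ENNReal.ofReal_pow (abs_nonneg _), ← ENNReal.rpow_natCast]
          push_cast
          exact ENNReal.rpow_le_rpow (ENNReal.ofReal_le_ofReal (le_abs_self _)) (by positivity)
      _ = ENNReal.ofReal (∫ u in Icc (T / 2) (3 * T), |f u| ^ (2 * q)) :=
          (ofReal_integral_eq_lintegral_ofReal hmi (Filter.Eventually.of_forall fun u => by positivity)).symm
      _ ≤ _ := ENNReal.ofReal_le_ofReal hm
  -- the bound for a shift
  set R : ℝ≥0∞ := volume G ^ (1 / (2 * (q : ℝ))) * volume H ^ (1 - 1 / (q : ℝ)) *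
    ENNReal.ofReal (M * S ^ (2 * q) * T) ^ (1 / (2 * (q : ℝ))) with hR
  have hshift : ∀ s : ℝ, ∫⁻ t in G, (H.indicator 1 (t + s) * Fw (t + s)) ≤ R := by
    intro s
    have hB : MeasurableSet ((fun t : ℝ => t + s) ⁻¹' H) := hH.preimage (measurable_add_const s)
    have h1 := holder3 hq hG hB (F := fun t => Fw (t + s)) (hFwm.comp (measurable_add_const s))
    have h2 : ∫⁻ t in G, (H.indicator 1 (t + s) * Fw (t + s)) =
        ∫⁻ t, G.indicator 1 t * (((fun t : ℝ => t + s) ⁻¹' H).indicator 1 t * Fw (t + s)) := by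
      rw [← lintegral_indicator hG]
      refine lintegral_congr fun t => ?_
      by_cases h : t ∈ G
      · rw [Set.indicator_of_mem h, Set.indicator_of_mem h, Pi.one_apply, one_mul]
        rfl
      · rw [Set.indicator_of_notMem h, Set.indicator_of_notMem h, zero_mul]
    rw [h2]
    refine h1.trans ?_
    rw [measure_preimage_add_right, lintegral_add_right_eq_self (fun u => Fw u ^ (2 * (q : ℝ))) s]
    rw [hR]
    gcongr
  -- Tonelli
  have hmain : ENNReal.ofReal (ρ * V / 2) * volume G ≤ R := by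
    calc ENNReal.ofReal (ρ * V / 2) * volume G = ∫⁻ _ in G, ENNReal.ofReal (ρ * V / 2) := by
          rw [setLIntegral_const]
      _ ≤ ∫⁻ t in G, ∫⁻ s, ENNReal.ofReal (k s) * (H.indicator 1 (t + s) * Fw (t + s)) := by
          refine setLIntegral_mono' hG fun t ht => ?_
          exact step_mean hT hV f hf k hk hk0 hki hk1 hkf hfar (hGT ht).1 (hGT ht).2 (hdev t ht)
      _ = ∫⁻ s, ∫⁻ t in G, ENNReal.ofReal (k s) * (H.indicator 1 (t + s) * Fw (t + s)) := by
          refine lintegral_lintegral_swap ?_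
          refine Measurable.aemeasurable ?_
          refine (hk.comp measurable_snd).ennreal_ofReal.mul ?_
          exact (hIm.comp (measurable_fst.add measurable_snd)).mul (hFwm.comp (measurable_fst.add measurable_snd))
      _ = ∫⁻ s, ENNReal.ofReal (k s) * ∫⁻ t in G, (H.indicator 1 (t + s) * Fw (t + s)) := by
          refine lintegral_congr fun s => ?_
          rw [lintegral_const_mul]
          exact (hIm.comp (measurable_add_const s)).mul (hFwm.comp (measurable_add_const s))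
      _ ≤ ∫⁻ s, ENNReal.ofReal (k s) * R := lintegral_mono fun s => mul_le_mul_right (hshift s) _
      _ = (∫⁻ s, ENNReal.ofReal (k s)) * R := lintegral_mul_const _ hk.ennreal_ofReal
      _ = R := by
          rw [← ofReal_integral_eq_lintegral_ofReal hki (Filter.Eventually.of_forall hk0), hk1, ENNReal.ofReal_one, one_mul]
  -- real numbers
  have hgle : p * T ≤ (volume G).toReal := by
    rw [← ENNReal.ofReal_le_iff_le_toReal hGfin]
    exact hpG
  have hfinal := step_arith (g := (volume G).toReal) (h := (volume H).toReal) hT0 hV hρ hS hM hq hp hgle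
    ENNReal.toReal_nonneg (by
      have hRfin : R ≠ ⊤ := by
        rw [hR]
        have h0 : (0 : ℝ) ≤ 1 - 1 / (q : ℝ) := by
          rw [sub_nonneg, div_le_one hq0]
          linarith
        refine ENNReal.mul_ne_top (ENNReal.mul_ne_top ?_ ?_) ?_
        · exact ENNReal.rpow_ne_top_of_nonneg (by positivity) hGfin
        · exact ENNReal.rpow_ne_top_of_nonneg h0 hHfin
        · exact ENNReal.rpow_ne_top_of_nonneg (by positivity) ENNReal.ofReal_ne_top
      have h1 := ENNReal.toReal_mono hRfin hmain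
      rw [hR] at h1
      rw [ENNReal.toReal_mul, ENNReal.toReal_ofReal (by positivity), ENNReal.toReal_mul, ENNReal.toReal_mul,
        ← ENNReal.toReal_rpow, ← ENNReal.toReal_rpow, ← ENNReal.toReal_rpow,
        ENNReal.toReal_ofReal (by positivity)] at h1
      exact h1)
  rw [← ENNReal.ofReal_toReal hHfin]
  exact ENNReal.ofReal_le_ofReal hfinal

end Pool.Agent.Helper72.UX
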